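import Pool.Agent.H78.GX.H6.N4D.TA

/-!
# Row CON of n4d_modules
-/

set_option autoImplicit false

open Finset Pool.Agent.H6.N4D Pool.Agent.H78.GX.H6.N4D Pool.Agent.H78.GX

namespace Pool.Agent.H78.GX.H72.N4D

theorem sum_shift_le (A B : Finset ℤ) (v : ℤ) (g : ℤ → ℝ) (hg : ∀ t, 0 ≤ g t)
    (h : ∀ t ∈ A, t + v ∈ B) : ∑ t ∈ A, g (t + v) ≤ ∑ t ∈ B, g t := by
  have h1 : ∑ t ∈ A, g (t + v) = ∑ u ∈ A.image (fun t => t + v), g u := by
    rw [sum_image]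
    intro x _ y _ hxy
    simpa using hxy
  rw [h1]
  refine sum_le_sum_of_subset_of_nonneg ?_ (fun i _ _ => hg i)
  intro u hu
  rw [mem_image] at hu
  obtain ⟨t, ht, rfl⟩ := hu
  exact h t ht

/-- the places of the chain -/
def cc (D i : ℕ) : ℕ := i * D / 15

theorem cc_zero (D : ℕ) : cc D 0 = 0 := by simp [cc]

theorem cc_last (D : ℕ) : cc D 15 = D := by unfold cc; omega

theorem cc_le (D i : ℕ) (h : i ≤ 15) : cc D i ≤ D := by
  unfold cc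
  have : i * D ≤ 15 * D := Nat.mul_le_mul_right D h
  omega

theorem cc_step (D i : ℕ) : cc D i ≤ cc D (i + 1) ∧ cc D (i + 1) ≤ cc D i + (D / 15 + 1) := by
  unfold cc
  rw [add_mul, one_mul]
  omega

/-- the chain inequality -/
theorem chain (f : ℤ → ℂ) (s : ℤ) (D : ℕ) :
    ‖f (s + D) - f s‖ ^ 2 ≤
      15 * ∑ i ∈ range 15, ‖f (s + (cc D (i + 1) : ℕ)) - f (s + (cc D i : ℕ))‖ ^ 2 := by
  have h1 : f (s + D) - f s =
      ∑ i ∈ range 15, (f (s + (cc D (i + 1) : ℕ)) - f (s + (cc D i : ℕ))) := by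
    rw [Finset.sum_range_sub (fun i => f (s + (cc D i : ℕ))), cc_zero, cc_last]
    simp
  rw [h1]
  have h2 := norm_sum_le (range 15) (fun i => f (s + (cc D (i + 1) : ℕ)) - f (s + (cc D i : ℕ)))
  have h3 := sq_sum_le_card_mul_sum_sq (s := range 15)
    (f := fun i => ‖f (s + (cc D (i + 1) : ℕ)) - f (s + (cc D i : ℕ))‖)
  rw [card_range] at h3
  refine (pow_le_pow_left₀ (norm_nonneg _) h2 2).trans ?_
  simpa using h3

theorem con_dist (J : Finset ℤ) (f : ℤ → ℂ) (Dm : ℕ) (E : ℝ)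
    (hconv : ∀ x ∈ J, ∀ y ∈ J, ∀ z, x ≤ z → z ≤ y → z ∈ J)
    (hmac : ∀ v : ℕ, v ≤ Dm / 15 + 1 →
      ∑ t ∈ J.filter (fun t => t + (v : ℤ) ∈ J), ‖f (t + v) - f t‖ ^ 2 ≤ E)
    (D : ℕ) (hD : D ≤ Dm) :
    ∑ s ∈ J.filter (fun s => s + (D : ℤ) ∈ J), ‖f (s + D) - f s‖ ^ 2 ≤ 225 * E := by
  have h1 : ∀ i ∈ range 15, ∑ s ∈ J.filter (fun s => s + (D : ℤ) ∈ J),
      ‖f (s + (cc D (i + 1) : ℕ)) - f (s + (cc D i : ℕ))‖ ^ 2 ≤ E := by
    intro i hi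
    rw [mem_range] at hi
    have hs := cc_step D i
    obtain ⟨v, hv⟩ := Nat.exists_eq_add_of_le hs.1
    have hvle : v ≤ Dm / 15 + 1 := by
      have : D / 15 ≤ Dm / 15 := Nat.div_le_div_right hD
      omega
    refine le_trans ?_ (hmac v hvle)
    have h2 : ∀ s : ℤ, ‖f (s + (cc D (i + 1) : ℕ)) - f (s + (cc D i : ℕ))‖ ^ 2 =
        (fun t : ℤ => ‖f (t + v) - f t‖ ^ 2) (s + (cc D i : ℕ)) := by
      intro s
      change _ = ‖f (s + (cc D i : ℕ) + v) - f (s + (cc D i : ℕ))‖ ^ 2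
      rw [hv]
      push_cast
      rw [add_assoc]
    rw [sum_congr rfl (fun s _ => h2 s)]
    refine sum_shift_le _ _ _ (fun t : ℤ => ‖f (t + v) - f t‖ ^ 2) (fun t => by positivity) ?_
    intro s hs'
    rw [mem_filter] at hs' ⊢
    have hl1 : cc D i ≤ D := cc_le D i (by omega)
    have hl2 : cc D (i + 1) ≤ D := cc_le D (i + 1) (by omega)
    refine ⟨hconv s hs'.1 (s + D) hs'.2 _ (by omega) (by omega), ?_⟩
    exact hconv s hs'.1 (s + D) hs'.2 _ (by omega) (by omega)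
  calc ∑ s ∈ J.filter (fun s => s + (D : ℤ) ∈ J), ‖f (s + D) - f s‖ ^ 2
      ≤ ∑ s ∈ J.filter (fun s => s + (D : ℤ) ∈ J),
        15 * ∑ i ∈ range 15, ‖f (s + (cc D (i + 1) : ℕ)) - f (s + (cc D i : ℕ))‖ ^ 2 :=
        sum_le_sum fun s _ => chain f s D
    _ = 15 * ∑ i ∈ range 15, ∑ s ∈ J.filter (fun s => s + (D : ℤ) ∈ J),
        ‖f (s + (cc D (i + 1) : ℕ)) - f (s + (cc D i : ℕ))‖ ^ 2 := by
        rw [← mul_sum, sum_comm]
    _ ≤ 15 * ∑ i ∈ range 15, E := by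
        gcongr with i hi
        exact h1 i hi
    _ = 225 * E := by
        rw [sum_const, card_range]
        simp only [nsmul_eq_mul]
        push_cast
        ring

theorem con_core (J : Finset ℤ) (f : ℤ → ℂ) (Dm : ℕ) (E : ℝ) (hne : J.Nonempty)
    (hconv : ∀ x ∈ J, ∀ y ∈ J, ∀ z, x ≤ z → z ≤ y → z ∈ J)
    (hdiam : ∀ x ∈ J, ∀ y ∈ J, y - x ≤ Dm)
    (hmac : ∀ v : ℕ, v ≤ Dm / 15 + 1 →
      ∑ t ∈ J.filter (fun t => t + (v : ℤ) ∈ J), ‖f (t + v) - f t‖ ^ 2 ≤ E) :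
    ∃ s ∈ J, (J.card : ℝ) * ∑ t ∈ J, ‖f t - f s‖ ^ 2 ≤ (2 * Dm + 1) * (225 * E) := by
  classical
  have hE := con_dist J f Dm E hconv hmac
  -- signed distances
  have hE' : ∀ D : ℤ, D ∈ Icc (-(Dm : ℤ)) Dm →
      ∑ s ∈ J.filter (fun s => s + D ∈ J), ‖f (s + D) - f s‖ ^ 2 ≤ 225 * E := by
    intro D hD
    rw [mem_Icc] at hD
    rcases le_total 0 D with h0 | h0
    · obtain ⟨d, rfl⟩ := Int.eq_ofNat_of_zero_le h0
      exact hE d (by omega)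
    · obtain ⟨d, hd⟩ := Int.eq_ofNat_of_zero_le (show 0 ≤ -D by omega)
      have hD2 : D = -(d : ℤ) := by omega
      subst hD2
      refine le_trans ?_ (hE d (by omega))
      have h2 : ∀ s : ℤ, ‖f (s + -(d : ℤ)) - f s‖ ^ 2 =
          (fun t : ℤ => ‖f (t + d) - f t‖ ^ 2) (s + -(d : ℤ)) := by
        intro s
        change _ = ‖f (s + -(d : ℤ) + d) - f (s + -(d : ℤ))‖ ^ 2
        rw [norm_sub_rev]
        congr 4
        ring
      rw [sum_congr rfl (fun s _ => h2 s)]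
      refine sum_shift_le _ _ _ (fun t : ℤ => ‖f (t + d) - f t‖ ^ 2) (fun t => by positivity) ?_
      intro s hs
      rw [mem_filter] at hs ⊢
      refine ⟨hs.2, ?_⟩
      rw [show s + -(d : ℤ) + d = s by ring]
      exact hs.1
  have htot : ∑ s ∈ J, ∑ t ∈ J, ‖f t - f s‖ ^ 2 ≤ (2 * Dm + 1) * (225 * E) := by
    have h3 : ∀ s ∈ J, ∑ t ∈ J, ‖f t - f s‖ ^ 2 ≤
        ∑ D ∈ Icc (-(Dm : ℤ)) Dm, if s + D ∈ J then ‖f (s + D) - f s‖ ^ 2 else 0 := by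
      intro s hs
      rw [← sum_filter]
      have h4 : ∀ t : ℤ, ‖f t - f s‖ ^ 2 =
          (fun D : ℤ => ‖f (s + D) - f s‖ ^ 2) (t + -s) := by
        intro t
        change _ = ‖f (s + (t + -s)) - f s‖ ^ 2
        congr 4
        ring
      rw [sum_congr rfl (fun t _ => h4 t)]
      refine sum_shift_le _ _ _ (fun D : ℤ => ‖f (s + D) - f s‖ ^ 2) (fun t => by positivity) ?_
      intro t ht
      rw [mem_filter, mem_Icc]
      have h5 := hdiam s hs t ht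
      have h6 := hdiam t ht s hs
      refine ⟨⟨by omega, by omega⟩, ?_⟩
      rw [show s + (t + -s) = t by ring]
      exact ht
    calc ∑ s ∈ J, ∑ t ∈ J, ‖f t - f s‖ ^ 2
        ≤ ∑ s ∈ J, ∑ D ∈ Icc (-(Dm : ℤ)) Dm,
          (if s + D ∈ J then ‖f (s + D) - f s‖ ^ 2 else 0) := sum_le_sum h3
      _ = ∑ D ∈ Icc (-(Dm : ℤ)) Dm, ∑ s ∈ J.filter (fun s => s + D ∈ J),
          ‖f (s + D) - f s‖ ^ 2 := by
          rw [sum_comm]
          refine sum_congr rfl fun D _ => ?_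
          rw [sum_filter]
      _ ≤ ∑ D ∈ Icc (-(Dm : ℤ)) Dm, 225 * E := sum_le_sum hE'
      _ = (2 * Dm + 1) * (225 * E) := by
          rw [sum_const, Int.card_Icc, nsmul_eq_mul]
          congr 1
          have : ((Dm : ℤ) + 1 - -(Dm : ℤ)).toNat = 2 * Dm + 1 := by omega
          rw [this]
          push_cast
          ring
  -- the average
  have hc : (0 : ℝ) < J.card := by exact_mod_cast hne.card_pos
  by_contra hcon
  push Not at hcon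
  have h7 : ∑ s ∈ J, (2 * (Dm : ℝ) + 1) * (225 * E) / J.card <
      ∑ s ∈ J, ∑ t ∈ J, ‖f t - f s‖ ^ 2 := by
    refine sum_lt_sum_of_nonempty hne fun s hs => ?_
    rw [div_lt_iff₀ hc]
    have := hcon s hs
    linarith
  rw [sum_const, nsmul_eq_mul, mul_div_cancel₀ _ hc.ne'] at h7
  linarith

theorem pf_CON (hMAC : T_MAC) (hSIZ : T_SIZ) : T_CON := by
  intro B c X₁ hgap M hM
  obtain ⟨C, hC, hmac⟩ := hMAC B c X₁ hgap M hM
  obtain ⟨X₂, hsiz⟩ := hSIZ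
  refine ⟨675 * C, by linarith, fun K hK => ?_⟩
  obtain ⟨X₃, hmac⟩ := hmac K hK
  refine ⟨max X₂ X₃, fun S hS hSK hX ε f hε hε1 hf hedg => ?_⟩
  obtain ⟨hL, hP, -, hr, hh4, -, -, -, -, -, -, hN, hcard⟩ :=
    hsiz S hS ((le_max_left _ _).trans hX)
  have hm := hmac S hS hSK ((le_max_right _ _).trans hX) ε f hε hε1 hf hedg
  have hh := hS.hh
  have hI1 := hS.hI1
  have hI2 := hS.hI2
  have hKc : (S.K : ℝ) = K := by rw [hSK]
  have hK1 : (1 : ℝ) ≤ S.K := by exact_mod_cast hS.hK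
  have hsmall : S.h ≤ 1 / 100 := by
    have h1 : S.rho ^ 4 ≤ (1 / 100) ^ 4 := pow_le_pow_left₀ hS.hr0.le hr 4
    have h2 : ((1 : ℝ) / 100) ^ 4 ≤ 1 / 100 := by norm_num
    linarith
  set Q : ℝ := S.K * S.L with hQ
  have hQ1 : 1 ≤ Q := by nlinarith
  have hQI1 : 12 * Q ≤ S.N * S.h := by rw [hQ]; linarith
  have hQI2 : S.N * S.h ≤ 13 * Q := by rw [hQ]; linarith
  have hNd : S.N = (S.b : ℝ) - S.a := rfl
  have hmemI : ∀ t, t ∈ In S 3 ↔ 3 * Q ≤ ((t : ℝ) - S.a) * S.h ∧ 3 * Q ≤ ((S.b : ℝ) - t) * S.h := by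
    intro t
    unfold In
    rw [mem_filter, Par.mem_I]
    constructor
    · exact fun h => h.2
    · intro h
      refine ⟨⟨?_, ?_⟩, h⟩
      · have h1 : 0 < ((t : ℝ) - S.a) * S.h := by linarith [h.1]
        have h2 : 0 < (t : ℝ) - S.a := (pos_iff_pos_of_mul_pos h1).2 hh
        have h3 : (S.a : ℝ) < t := by linarith
        have h4 : S.a < t := by exact_mod_cast h3
        exact h4.le
      · have h1 : 0 < ((S.b : ℝ) - t) * S.h := by linarith [h.2]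
        have h2 : 0 < (S.b : ℝ) - t := (pos_iff_pos_of_mul_pos h1).2 hh
        have h3 : (t : ℝ) < S.b := by linarith
        exact_mod_cast h3
  have hQh : 1 ≤ Q / S.h := by
    rw [le_div_iff₀ hh]; linarith
  -- the number of points
  have hcardJ : 5 * (Q / S.h) ≤ ((In S 3).card : ℝ) := by
    have hsub : Icc ⌈(S.a : ℝ) + 3 * Q / S.h⌉ ⌊(S.b : ℝ) - 3 * Q / S.h⌋ ⊆ In S 3 := by
      intro t ht
      rw [mem_Icc] at ht
      rw [hmemI]
      have h1 : (S.a : ℝ) + 3 * Q / S.h ≤ t := Int.ceil_le.1 ht.1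
      have h2 : (t : ℝ) ≤ S.b - 3 * Q / S.h := Int.le_floor.1 ht.2
      constructor
      · rw [← div_le_iff₀ hh]; linarith
      · rw [← div_le_iff₀ hh]; linarith
    have h1 : ((Icc ⌈(S.a : ℝ) + 3 * Q / S.h⌉ ⌊(S.b : ℝ) - 3 * Q / S.h⌋).card : ℝ) ≤
        (In S 3).card := by exact_mod_cast card_le_card hsub
    rw [Int.card_Icc] at h1
    have h2 : (((⌊(S.b : ℝ) - 3 * Q / S.h⌋ + 1 - ⌈(S.a : ℝ) + 3 * Q / S.h⌉) : ℤ) : ℝ) ≤
        (((⌊(S.b : ℝ) - 3 * Q / S.h⌋ + 1 - ⌈(S.a : ℝ) + 3 * Q / S.h⌉).toNat : ℤ) : ℝ) := by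
      exact_mod_cast Int.self_le_toNat _
    push_cast at h2
    have h3 := Int.lt_floor_add_one ((S.b : ℝ) - 3 * Q / S.h)
    have h4 := Int.ceil_lt_add_one ((S.a : ℝ) + 3 * Q / S.h)
    have h5 : 12 * (Q / S.h) ≤ S.N := by
      rw [mul_div_assoc', div_le_iff₀ hh]; exact hQI1
    have h6 : 3 * Q / S.h = 3 * (Q / S.h) := by ring
    rw [h6] at h2 h3 h4 h1
    rw [hNd] at h5
    have h7 : (((⌊(S.b : ℝ) - 3 * (Q / S.h)⌋ + 1 - ⌈(S.a : ℝ) + 3 * (Q / S.h)⌉).toNat : ℕ) : ℝ)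
      = (((⌊(S.b : ℝ) - 3 * (Q / S.h)⌋ + 1 - ⌈(S.a : ℝ) + 3 * (Q / S.h)⌉).toNat : ℤ) : ℝ) := by
      norm_cast
    rw [h7] at h1
    push_cast at h1 h2
    linarith
  have hnpos : (0 : ℝ) < (In S 3).card := by linarith
  have hne : (In S 3).Nonempty := by
    rw [← card_pos]
    exact_mod_cast hnpos
  set Dm : ℕ := ⌊7 * Q / S.h⌋₊ with hDm
  have hDm1 : (Dm : ℝ) ≤ 7 * Q / S.h := Nat.floor_le (by positivity)
  have hconv : ∀ x ∈ In S 3, ∀ y ∈ In S 3, ∀ z, x ≤ z → z ≤ y → z ∈ In S 3 := by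
    intro x hx y hy z hxz hzy
    rw [hmemI] at hx hy ⊢
    have h1 : (x : ℝ) ≤ z := by exact_mod_cast hxz
    have h2 : (z : ℝ) ≤ y := by exact_mod_cast hzy
    constructor
    · nlinarith [hx.1]
    · nlinarith [hy.2]
  have hdiam : ∀ x ∈ In S 3, ∀ y ∈ In S 3, y - x ≤ Dm := by
    intro x hx y hy
    rw [hmemI] at hx hy
    have h1 : ((y : ℝ) - x) * S.h ≤ 7 * Q := by
      have : ((y : ℝ) - x) * S.h = S.N * S.h - ((x : ℝ) - S.a) * S.h - ((S.b : ℝ) - y) * S.h := by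
        rw [hNd]; ring
      rw [this]; linarith [hx.1, hy.2]
    have h2 : (y : ℝ) - x ≤ 7 * Q / S.h := by rwa [le_div_iff₀ hh]
    by_contra hcon
    push Not at hcon
    have h3 : (Dm : ℤ) + 1 ≤ y - x := hcon
    have h4 : ((Dm : ℝ)) + 1 ≤ (y : ℝ) - x := by exact_mod_cast h3
    have h5 := Nat.lt_floor_add_one (7 * Q / S.h)
    rw [← hDm] at h5
    linarith
  have hmac' : ∀ v : ℕ, v ≤ Dm / 15 + 1 →
      ∑ t ∈ (In S 3).filter (fun t => t + (v : ℤ) ∈ In S 3), ‖f (t + v) - f t‖ ^ 2 ≤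
        C * (K * ε + 1 / (K : ℝ) ^ 2) * S.N := by
    intro v hv
    refine hm v ?_
    have h1 : (v : ℝ) ≤ (Dm / 15 : ℕ) + 1 := by exact_mod_cast hv
    have h2 : ((Dm / 15 : ℕ) : ℝ) ≤ (Dm : ℝ) / 15 := Nat.cast_div_le
    have h3 : (v : ℝ) ≤ 7 * Q / S.h / 15 + 1 := by linarith
    have h4 : (v : ℝ) * S.h ≤ (7 * Q / S.h / 15 + 1) * S.h := by gcongr
    have h5 : (7 * Q / S.h / 15 + 1) * S.h = 7 * Q / 15 + S.h := by
      field_simp
    rw [h5] at h4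
    rw [← hKc, ← hQ]
    linarith
  obtain ⟨s, hs, hfin⟩ := con_core (In S 3) f Dm _ hne hconv hdiam hmac'
  refine ⟨f s, hf s, ?_⟩
  set E : ℝ := C * (K * ε + 1 / (K : ℝ) ^ 2) * S.N with hE
  have hE0 : 0 ≤ E := by positivity
  have h8 : (2 * (Dm : ℝ) + 1) * (225 * E) ≤ 15 * (Q / S.h) * (225 * E) := by
    have : 2 * (Dm : ℝ) + 1 ≤ 15 * (Q / S.h) := by
      have h9 : 7 * Q / S.h = 7 * (Q / S.h) := by ring
      rw [h9] at hDm1
      linarith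
    gcongr
  set T : ℝ := ∑ t ∈ In S 3, ‖f t - f s‖ ^ 2 with hT
  have hT0 : 0 ≤ T := sum_nonneg fun t _ => by positivity
  have h9 : 5 * (Q / S.h) * T ≤ ((In S 3).card : ℝ) * T := by gcongr
  have h10 : 5 * (Q / S.h) * T ≤ 5 * (Q / S.h) * (675 * E) := by
    calc 5 * (Q / S.h) * T ≤ ((In S 3).card : ℝ) * T := h9
      _ ≤ (2 * (Dm : ℝ) + 1) * (225 * E) := hfin
      _ ≤ 15 * (Q / S.h) * (225 * E) := h8
      _ = 5 * (Q / S.h) * (675 * E) := by ring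
  have h11 : T ≤ 675 * E := le_of_mul_le_mul_left h10 (by linarith)
  calc T ≤ 675 * E := h11
    _ = 675 * C * (K * ε + 1 / (K : ℝ) ^ 2) * S.N := by rw [hE]; ring

end Pool.Agent.H78.GX.H72.N4D
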